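import Mathlib

/-!
# Roots of pairwise non-associated irreducible polynomials modulo large primes
-/

set_option autoImplicit false

namespace Pool.Agent.N935.EC

open Finset Polynomial

/-- a nonzero integer in the ideal of two coprime polynomials -/
theorem exists_bezout {f g : ℤ[X]} (hf : Irreducible f) (hf0 : 0 < f.natDegree)
    (hg : Irreducible g) (hg0 : 0 < g.natDegree) (hfg : ¬ Associated f g) :
    ∃ (N : ℤ) (u v : ℤ[X]), N ≠ 0 ∧ u * f + v * g = C N := by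
  have pf : f.IsPrimitive := hf.isPrimitive hf0.ne'
  have pg : g.IsPrimitive := hg.isPrimitive hg0.ne'
  have hfQ : Irreducible (f.map (Int.castRingHom ℚ)) :=
    (Polynomial.IsPrimitive.Int.irreducible_iff_irreducible_map_cast pf).mp hf
  have hnd : ¬ f.map (Int.castRingHom ℚ) ∣ g.map (Int.castRingHom ℚ) := by
    intro h
    have h1 := (Polynomial.IsPrimitive.Int.dvd_iff_map_cast_dvd_map_cast f g pf).mpr h
    exact hfg (hf.associated_of_dvd hg h1)
  obtain ⟨u, v, huv⟩ := (hfQ.coprime_iff_not_dvd).mpr hnd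
  have key : ∀ u : ℚ[X], ∃ (b : ℤ) (U : ℤ[X]), b ≠ 0 ∧
      U.map (Int.castRingHom ℚ) = C (b : ℚ) * u := by
    intro u
    obtain ⟨b, hb0, hb⟩ := IsLocalization.integerNormalization_spec (nonZeroDivisors ℤ) u
    refine ⟨b, IsLocalization.integerNormalization (nonZeroDivisors ℤ) u,
      nonZeroDivisors.ne_zero hb0, ?_⟩
    have e : (algebraMap ℤ ℚ) = Int.castRingHom ℚ := rfl
    rw [e] at hb
    rw [hb]
    ext n
    simp
  obtain ⟨b, U, hb, hU⟩ := key u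
  obtain ⟨c, V, hc, hV⟩ := key v
  refine ⟨b * c, C c * U, C b * V, mul_ne_zero hb hc, ?_⟩
  apply Polynomial.map_injective (Int.castRingHom ℚ) Int.cast_injective
  rw [Polynomial.map_add, Polynomial.map_mul, Polynomial.map_mul, Polynomial.map_mul,
    Polynomial.map_mul, hU, hV, Polynomial.map_C, Polynomial.map_C, Polynomial.map_C]
  simp only [eq_intCast, Int.cast_mul, C_mul]
  linear_combination (C (b : ℚ) * C (c : ℚ)) * huv

theorem exists_z1 {ι : Type} [Fintype ι] (f : ι → ℤ[X])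
    (hf : ∀ i, Irreducible (f i) ∧ 0 < (f i).natDegree)
    (hna : ∀ i j, i ≠ j → ¬ Associated (f i) (f j)) :
    ∃ z1 : ℕ, ∀ p : ℕ, p.Prime → z1 < p → ∀ i j, i ≠ j → ∀ x : ℤ, (p : ℤ) ∣ (f i).eval x →
      ¬ (p : ℤ) ∣ (f j).eval x := by
  classical
  have h : ∀ ij : ι × ι, ∃ N : ℕ, N ≠ 0 ∧ (ij.1 ≠ ij.2 → ∀ p : ℕ, ∀ x : ℤ,
      (p : ℤ) ∣ (f ij.1).eval x → (p : ℤ) ∣ (f ij.2).eval x → p ∣ N) := by
    intro ij
    by_cases hij : ij.1 = ij.2
    · exact ⟨1, one_ne_zero, fun h => absurd hij h⟩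
    · obtain ⟨N, u, v, hN, h⟩ := exists_bezout (hf ij.1).1 (hf ij.1).2 (hf ij.2).1 (hf ij.2).2
        (hna _ _ hij)
      refine ⟨N.natAbs, Int.natAbs_ne_zero.mpr hN, fun _ p x h1 h2 => ?_⟩
      have h3 := congrArg (fun q : ℤ[X] => q.eval x) h
      simp only [eval_add, eval_mul, eval_C] at h3
      have h4 : (p : ℤ) ∣ N := by
        rw [← h3]
        exact dvd_add (Dvd.dvd.mul_left h1 _) (Dvd.dvd.mul_left h2 _)
      exact Int.natCast_dvd.mp h4
  choose N hN hN2 using h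
  refine ⟨univ.sup N, fun p hp hz i j hij x h1 h2 => ?_⟩
  have h3 := hN2 (i, j) hij p x h1 h2
  have h4 := Nat.le_of_dvd (Nat.pos_of_ne_zero (hN _)) h3
  have h5 : N (i, j) ≤ univ.sup N := Finset.le_sup (mem_univ _)
  omega

theorem sum_card_le {ι : Type} [Fintype ι] {p : ℕ} (f : ι → ℤ[X]) (a : ℤ) (P : ℕ → Prop)
    (hdis : ∀ i j, i ≠ j → ∀ x : ℤ, (p : ℤ) ∣ (f i).eval x → ¬ (p : ℤ) ∣ (f j).eval x)
    (R : ι → Finset ℕ) (T : Finset ℕ)
    (hR : ∀ i x, x ∈ R i ↔ x < p ∧ (p : ℤ) ∣ (f i).eval (x : ℤ) ∧ P x)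
    (hT : ∀ x, x ∈ T ↔ x < p ∧ (p : ℤ) ∣ (C a * ∏ i, f i).eval (x : ℤ) ∧ P x) :
    ∑ i, (R i).card ≤ T.card := by
  classical
  rw [← Finset.card_biUnion]
  · refine Finset.card_le_card fun x hx => ?_
    obtain ⟨i, _, hi⟩ := Finset.mem_biUnion.mp hx
    obtain ⟨h1, h2, h3⟩ := (hR i x).mp hi
    refine (hT x).mpr ⟨h1, ?_, h3⟩
    rw [eval_mul, eval_prod]
    exact Dvd.dvd.mul_left (h2.trans (Finset.dvd_prod_of_mem (fun i => (f i).eval (x : ℤ)) (mem_univ i))) _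
  · intro i _ j _ hij
    show Disjoint (R i) (R j)
    rw [Finset.disjoint_left]
    intro x hxi hxj
    exact hdis i j hij x ((hR i x).mp hxi).2.1 ((hR j x).mp hxj).2.1

end Pool.Agent.N935.EC
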