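import Pool.Agent.N870.EC.Stm
import Pool.Agent.N935.EC.MerpA

/-!
# EC/MERP: Mertens for the split roots of a product of irreducible polynomials
-/

set_option autoImplicit false

namespace Pool.Agent.N935.EC

open Pool.Agent.N870.EC

open Finset Polynomial

open scoped Classical

open Pool.Agent.W262.RK (PS)
open Pool.Agent.TH841.TR (SqM)

/-- **EC/MERP** -/
theorem t_MERP (h : S_MER1) : S_MERP := by
  intro ι _ f a w ha hf hna hw
  obtain ⟨z1, hz1⟩ := Pool.Agent.N935.EC.exists_z1 f hf hna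
  choose z0 hz0 using fun i => h (f i) w (hf i).1 (hf i).2 (hw i)
  refine ⟨max z1 (univ.sup z0), fun z hz => ?_⟩
  choose K hK using fun i => hz0 i z
    (le_trans (Finset.le_sup (f := z0) (mem_univ i)) (le_trans (le_max_right _ _) hz))
  refine ⟨∑ i, K i, fun y hy => ?_⟩
  have h1 : ∀ p ∈ PS z y, ∑ i, (gm (f i) w p : ℝ) / p ≤ (gm (C a * ∏ i, f i) w p : ℝ) / p := by
    intro p hp
    have hp' := Finset.mem_filter.mp hp
    have hzp : z < p := (Finset.mem_Ioc.mp hp'.1).1
    rw [← Finset.sum_div]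
    refine div_le_div_of_nonneg_right ?_ (Nat.cast_nonneg _)
    have h2 := Pool.Agent.N935.EC.sum_card_le (p := p) f a
      (fun x => jacobiSym (w.eval (x : ℤ)) p = 1)
      (hz1 p hp'.2 (lt_of_le_of_lt (le_trans (le_max_left _ _) hz) hzp))
      (fun i => (range p).filter (fun x : ℕ =>
        (p : ℤ) ∣ (f i).eval (x : ℤ) ∧ jacobiSym (w.eval (x : ℤ)) p = 1))
      ((range p).filter (fun x : ℕ =>
        (p : ℤ) ∣ (C a * ∏ i, f i).eval (x : ℤ) ∧ jacobiSym (w.eval (x : ℤ)) p = 1))
      (fun i x => by rw [Finset.mem_filter, Finset.mem_range])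
      (fun x => by rw [Finset.mem_filter, Finset.mem_range])
    unfold gm
    exact_mod_cast h2
  have h2 := Finset.sum_le_sum h1
  refine le_trans ?_ h2
  rw [Finset.sum_comm]
  have h3 := Finset.sum_le_sum (fun i (_ : i ∈ univ) => hK i y hy)
  refine le_trans (le_of_eq ?_) h3
  rw [Finset.sum_sub_distrib, ← Finset.sum_mul]
  congr 2
  have h4 : ∀ i : ι, (if SqM (f i) w then (1 : ℝ) else 1 / 2) =
      1 / 2 + (if SqM (f i) w then (1 : ℝ) else 0) / 2 := by
    intro i
    split_ifs <;> norm_num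
  have h5 : ∑ i : ι, (if SqM (f i) w then (1 : ℝ) else 0) / 2 =
      ((univ.filter (fun i => SqM (f i) w)).card : ℝ) / 2 := by
    rw [← Finset.sum_div, Finset.sum_boole]
  rw [Finset.sum_congr rfl fun i _ => h4 i, Finset.sum_add_distrib, h5,
    Finset.sum_const, Finset.card_univ, nsmul_eq_mul]
  ring

end Pool.Agent.N935.EC
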